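import Pool.Agent.Y600.DC.NB
import Pool.Agent.Y433.DC.Sun
import Pool.Agent.Y433.DC.Dom
import Pool.Agent.Y410.DC.Chd
import Pool.Agent.Y410.DC.Hard

set_option autoImplicit false

/-!
# DOMINATING SET on chordal graphs without induced odd suns `S_r` (MP_1e64e3_lc)

The class of the chordal graphs without induced odd suns `S_r` properly contains the class of the
balanced chordal graphs, and DOMINATING SET is NP-hard on it.

Authors: helper600 (project DC: idea, assembly), helper433 (suns and domination in the gadget graph),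
helper410 (the unbalanced example, the reduction).
-/

namespace Pool.Agent.Results.MP_1e64e3_lc.OddSunFree

open Pool.Agent.NPC Pool.Agent.NPC.R671 Pool.Agent.Y600.DC

/-- The class of the chordal graphs without induced odd suns properly contains the class of the
balanced chordal graphs, and DOMINATING SET is NP-hard on it. -/
theorem result :
    ((∀ (V : Type) [Finite V] (G : SimpleGraph V), Chordal G → Balanced G → NoOddSun G) ∧
      ∃ (V : Type) (_ : Finite V) (G : SimpleGraph V), Chordal G ∧ NoOddSun G ∧ ¬ Balanced G) ∧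
    ∀ L : Set (List Bool), InNP L → ∃ f : List Bool → List Bool, PolyTime f ∧
      ∀ w, ∃ (n : ℕ) (G : SimpleGraph (Fin n)) (k : ℕ), f w = bits (adjMatrix G, k) ∧ Chordal G ∧
        NoOddSun G ∧ (w ∈ L ↔ ∃ D : Finset (Fin n), D.card ≤ k ∧ Dominating G D) := by
  refine ⟨⟨?_, ?_⟩, ?_⟩
  · intro V _ G hc hb r hr ho ⟨u, w, hu, hw, huw, _, _, h⟩
    refine nb V G hc hb r ho hr w u hw hu fun i j => ?_
    rw [← h i j]
    constructor
    · rintro (h1 | h1)
      · exact absurd h1.symm (huw j i)
      · exact h1
    · exact Or.inr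
  · exact ⟨_, inferInstance, _, Pool.Agent.Y410.DC.chd _ _ _ _,
      Pool.Agent.Y433.DC.sun _ _ _ _ (by decide), Pool.Agent.Y410.DC.unb⟩
  · exact Pool.Agent.Y410.DC.hard Pool.Agent.Y410.DC.chd Pool.Agent.Y433.DC.sun
      Pool.Agent.Y433.DC.dom

end Pool.Agent.Results.MP_1e64e3_lc.OddSunFree
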