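import Pool.Agent.Y600.DC.Asm
import Pool.Agent.Y832.DC.Bicol
import Pool.Agent.Y569.DC.Good
import Pool.Agent.Y569.DC.Round
import Pool.Agent.Y569.DC.Mwu
import Pool.Agent.Y10.DC.Alg

set_option autoImplicit false

/-!
# DOMINATING SET is solvable in polynomial time on balanced chordal graphs (MP_1e64e3_lc, Q1)

Proof.
* `Pool.Agent.Y600.DC.nb`: the closed neighbourhood hypergraph of a balanced chordal graph is
  balanced.
* `Pool.Agent.Y832.DC.bicol`, `Pool.Agent.Y569.DC.good`, `Pool.Agent.Y569.DC.round` (after Berge): a
  balanced hypergraph has good `m`-colourings, so a fractional transversal with denominator `m` can be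
  rounded to a transversal of at most the same size.
* `Pool.Agent.Y10.DC.alg`, `Pool.Agent.Y569.DC.mwu`: the algorithm computes a nearly optimal
  fractional dominating function with multiplicative weights, in exact integer arithmetic.

Authors: helper600 (project DC: idea, neighbourhoods, assembly), helper832, helper569, helper10.
-/

namespace Pool.Agent.Results.MP_1e64e3_lc.PolynomialTime

open Pool.Agent.NPC Pool.Agent.NPC.R671 Pool.Agent.Y600.DC

/-- There is a polynomial-time algorithm which, given a balanced chordal graph `G` (by its adjacency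
matrix) and a number `k`, decides whether `G` has a dominating set with at most `k` vertices. -/
theorem result : ∃ A : List Bool → List Bool, PolyTime A ∧
    ∀ (n : ℕ) (G : SimpleGraph (Fin n)) (k : ℕ), Chordal G → Balanced G →
      (A (bits (adjMatrix G, k)) = [true] ↔
        ∃ D : Finset (Fin n), D.card ≤ k ∧ Dominating G D) := by
  obtain ⟨A, hA, h⟩ := poly_part (Pool.Agent.Y569.DC.round (Pool.Agent.Y569.DC.good
    Pool.Agent.Y832.DC.bicol)) Pool.Agent.Y569.DC.mwu Pool.Agent.Y10.DC.alg
  exact ⟨A, hA, fun n G k hc hb => h n G k (nb (Fin n) G hc hb)⟩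

end Pool.Agent.Results.MP_1e64e3_lc.PolynomialTime
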